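import Pool.Agent.helper83.ORE.SpecDE

/-!
# Project ore (MP_561ff4_al), row ERK
-/

set_option autoImplicit false
set_option linter.unusedVariables false

namespace Pool.Agent.ORE

open Module Pool.Agent.GS

theorem ERK_scale {F V : Type} [Field F] [Finite F] [AddCommGroup V] [Module F V]
    (Q : QuadraticForm F V) (h2 : (2 : F) = 0) (v : V) (hv : Q v ≠ 0) :
    ∃ c : F, c ≠ 0 ∧ Q (c • v) = 1 := by
  haveI := charP2 h2
  haveI := Fintype.ofFinite F
  have hs : IsSquare (Q v)⁻¹ := FiniteField.isSquare_of_char_two (ringChar.eq F 2) _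
  obtain ⟨c, hc⟩ := hs
  refine ⟨c, ?_, ?_⟩
  · rintro rfl
    rw [mul_zero] at hc
    exact (inv_ne_zero hv) hc
  · rw [Q_smul, pow_two, ← hc, inv_mul_cancel₀ hv]

theorem ERK (epq : EPQ_stmt) (esn : ESN_stmt) : ERK_stmt := by
  intro F V _ _ _ _ _ Q h2 hnd hdim hRO y hy hy1 hcase
  have hone : (1 : F) ≠ 0 := one_ne_zero
  rcases hcase with hs | ⟨b, hb, hyb⟩
  · -- first case
    have hyi : y⁻¹ ∈ OQ Q := (OQ Q).inv_mem hy
    obtain ⟨v, hv, hvc⟩ : ∃ v, Q v ≠ 0 ∧ ∀ c : F, y v + y⁻¹ v ≠ c • v := by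
      by_contra hcon
      push Not at hcon
      apply hs
      exact esn Q h2 hnd hdim (Ly y hy.1 + Ly y⁻¹ hyi.1) hcon
    obtain ⟨c, hc0, hc⟩ := ERK_scale Q h2 v hv
    obtain ⟨a, ha⟩ : ∃ a, a = c • v := ⟨_, rfl⟩
    rw [← ha] at hc
    have hac : ∀ d : F, y a + y⁻¹ a ≠ d • a := by
      intro d hd
      rw [ha, hy.1.2, hyi.1.2, ← smul_add, smul_comm] at hd
      exact hvc d (smul_right_injective V hc0 hd)
    have hQa : Q a ≠ 0 := by rw [hc]; exact hone
    have hQya : Q (y a) = 1 := by rw [hy.2, hc]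
    have hQya0 : Q (y a) ≠ 0 := by rw [hQya]; exact hone
    obtain ⟨w, hw⟩ : ∃ w, w = rq Q (y a) (y (y a)) := ⟨_, rfl⟩
    have hQw : Q w = 1 := by rw [hw, (rq_mem Q (y a)).2, hy.2, hQya]
    refine ⟨w, a, hQw, hc, ?_, ?_⟩
    · intro hwa
      rw [hw, rq_apply h2 hQya0, hQya, div_one] at hwa
      have h3 : y⁻¹ (y (y a) + pb Q (y (y a)) (y a) • y a) = y⁻¹ a := by rw [hwa]
      rw [hyi.1.1, hyi.1.2, invp, invp] at h3
      apply hac (pb Q (y (y a)) (y a))
      rw [← h3, ← add_assoc, addV h2, zero_add]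
    · have ht := hRO a (y a) hQa hQya0
      have h4 := Gq.comm (y := y) ht
      have e : y * (rq Q a * rq Q (y a)) * y⁻¹ * (rq Q a * rq Q (y a))⁻¹ = rq Q w * rq Q a := by
        have e1 : y * (rq Q a * rq Q (y a)) * y⁻¹ =
            (y * rq Q a * y⁻¹) * (y * rq Q (y a) * y⁻¹) := by group
        have e2 : rq Q (y a) * rq Q (y (y a)) * (rq Q (y a))⁻¹ = rq Q w := by
          rw [hw]
          exact rq_conj_mem (rq_mem Q (y a)) (y (y a))
        rw [e1, rq_conj_mem hy, rq_conj_mem hy, mul_inv_rev, ← e2, rq_inv, rq_inv]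
        simp only [mul_assoc]
      rwa [e] at h4
  · -- second case
    obtain ⟨x, hx⟩ : ∃ x, y x ≠ x := by
      by_contra hcon
      push Not at hcon
      exact hy1 (Equiv.ext hcon)
    obtain ⟨a, hQa1, hya⟩ : ∃ a, Q a = 1 ∧ y a ≠ a := by
      by_cases hQx : Q x = 0
      · have hx0 : x ≠ 0 := by
          rintro rfl
          apply hx
          have := hy.1.2 (0 : F) 0
          rwa [zero_smul, zero_smul] at this
        obtain ⟨w, hw1, hw2⟩ := (epq Q h2 hnd 1 ![x]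
          (linearIndependent_unique_iff.2 hx0) (fun _ => 0) 1).1 (by omega)
        have hw3 : pb Q x w = 0 := hw1 0
        have hQ : Q (x + w) = 1 := by rw [Q_add, hQx, hw2, hw3]; ring
        by_cases h5 : y w = w
        · refine ⟨x + w, hQ, ?_⟩
          intro h6
          rw [hy.1.1, h5] at h6
          exact hx (add_right_cancel h6)
        · exact ⟨w, hw2, h5⟩
      · obtain ⟨c, hc0, hc⟩ := ERK_scale Q h2 x hQx
        refine ⟨c • x, hc, ?_⟩
        intro h6
        rw [hy.1.2] at h6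
        exact hx (smul_right_injective V hc0 h6)
    have hQa : Q a ≠ 0 := by rw [hQa1]; exact hone
    refine ⟨y a, a, by rw [hy.2, hQa1], hQa1, hya, ?_⟩
    have ht := hRO a b hQa hb
    have h4 := Gq.comm (y := y) ht
    have e : y * (rq Q a * rq Q b) * y⁻¹ * (rq Q a * rq Q b)⁻¹ = rq Q (y a) * rq Q a := by
      have e1 : y * (rq Q a * rq Q b) * y⁻¹ = (y * rq Q a * y⁻¹) * (y * rq Q b * y⁻¹) := by group
      rw [e1, rq_conj_mem hy, rq_conj_mem hy, hyb, mul_inv_rev, rq_inv, rq_inv]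
      calc rq Q (y a) * rq Q b * (rq Q b * rq Q a)
          = rq Q (y a) * (rq Q b * rq Q b) * rq Q a := by group
        _ = rq Q (y a) * rq Q a := by rw [rq_sq, mul_one]
    rwa [e] at h4

end Pool.Agent.ORE
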